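import Pool.Agent.Work.MP_aa036a_co.Struct

set_option autoImplicit false
set_option linter.unusedSectionVars false
set_option linter.unusedVariables false

namespace Pool.Agent.Results.MP_aa036a_co.StrongAvoid

open Finset Pool.Agent.Work.MP_aa036a_co

/-- The permutation `π` of `n` letters contains the pattern with one-line word `τ`: there are
indices `g 0 < g 1 < ⋯` such that `π (g j) < π (g k)` holds exactly when `τ j < τ k`. -/
def Contains {m n : ℕ} (τ : Fin m → ℕ) (π : Equiv.Perm (Fin n)) : Prop :=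
  ∃ g : Fin m → Fin n, StrictMono g ∧ ∀ j k, π (g j) < π (g k) ↔ τ j < τ k

/-- The permutations `π` of `n` letters such that both `π` and `π² = π ∘ π` avoid the patterns
`321` and `1342`. -/
def SAv (n : ℕ) : Set (Equiv.Perm (Fin n)) :=
  {π | (¬ Contains ![3, 2, 1] π ∧ ¬ Contains ![1, 3, 4, 2] π) ∧
    (¬ Contains ![3, 2, 1] (π * π) ∧ ¬ Contains ![1, 3, 4, 2] (π * π))}

lemma contains321 {n : ℕ} (π : Equiv.Perm (Fin n)) : Contains ![3, 2, 1] π ↔
    ∃ i j k : Fin n, i < j ∧ j < k ∧ π k < π j ∧ π j < π i := by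
  constructor
  · rintro ⟨g, hg, h⟩
    refine ⟨g 0, g 1, g 2, hg (by decide), hg (by decide), ?_, ?_⟩
    · rw [h]; decide
    · rw [h]; decide
  · rintro ⟨i, j, k, hij, hjk, h1, h2⟩
    refine ⟨![i, j, k], ?_, ?_⟩
    · intro a b hab
      fin_cases a <;> fin_cases b <;> simp at hab ⊢
      · exact hij
      · exact hij.trans hjk
      · exact hjk
    · intro a b
      fin_cases a <;> fin_cases b <;> simp
      · exact h2.le
      · exact (h1.trans h2).le
      · exact h2
      · exact h1.le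
      · exact h1.trans h2
      · exact h1

lemma contains1342 {n : ℕ} (π : Equiv.Perm (Fin n)) : Contains ![1, 3, 4, 2] π ↔
    ∃ i j k l : Fin n, i < j ∧ j < k ∧ k < l ∧ π i < π l ∧ π l < π j ∧ π j < π k := by
  constructor
  · rintro ⟨g, hg, h⟩
    refine ⟨g 0, g 1, g 2, g 3, hg (by decide), hg (by decide), hg (by decide), ?_, ?_, ?_⟩
    · rw [h]; decide
    · rw [h]; decide
    · rw [h]; decide
  · rintro ⟨i, j, k, l, hij, hjk, hkl, h1, h2, h3⟩
    have h4 := h1.trans h2
    have h5 := h4.trans h3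
    have h6 := h2.trans h3
    refine ⟨![i, j, k, l], ?_, ?_⟩
    · intro a b hab
      fin_cases a <;> fin_cases b <;> simp at hab ⊢
      · exact hij
      · exact hij.trans hjk
      · exact (hij.trans hjk).trans hkl
      · exact hjk
      · exact hjk.trans hkl
      · exact hkl
    · intro a b
      fin_cases a <;> fin_cases b <;> simp
      all_goals first
        | assumption
        | exact le_of_lt (by assumption)

/-- avoidance of both patterns -/
def Av {n : ℕ} (π : Equiv.Perm (Fin n)) : Prop :=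
  (∀ i j k : Fin n, i < j → j < k → π k < π j → π j < π i → False) ∧
  (∀ i j k l : Fin n, i < j → j < k → k < l → π i < π l → π l < π j → π j < π k → False)

lemma av_iff {n : ℕ} (π : Equiv.Perm (Fin n)) :
    (¬ Contains ![3, 2, 1] π ∧ ¬ Contains ![1, 3, 4, 2] π) ↔ Av π := by
  rw [contains321, contains1342]
  unfold Av
  constructor
  · rintro ⟨h1, h2⟩
    exact ⟨fun i j k a b c d => h1 ⟨i, j, k, a, b, c, d⟩,
      fun i j k l a b c d e f => h2 ⟨i, j, k, l, a, b, c, d, e, f⟩⟩
  · rintro ⟨h1, h2⟩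
    exact ⟨fun ⟨i, j, k, a, b, c, d⟩ => h1 i j k a b c d,
      fun ⟨i, j, k, l, a, b, c, d, e, f⟩ => h2 i j k l a b c d e f⟩

lemma mem_SAv {n : ℕ} (π : Equiv.Perm (Fin n)) : π ∈ SAv n ↔ Av π ∧ Av (π * π) := by
  unfold SAv
  rw [Set.mem_ofPred_eq, av_iff, av_iff]

/-! ### direct sums -/

/-- direct sum of permutations -/
def dsum {m k : ℕ} (π : Equiv.Perm (Fin m)) (σ : Equiv.Perm (Fin k)) :
    Equiv.Perm (Fin (m + k)) :=
  finSumFinEquiv.permCongr (Equiv.Perm.sumCongr π σ)

lemma dsum_castAdd {m k : ℕ} (π : Equiv.Perm (Fin m)) (σ : Equiv.Perm (Fin k)) (i : Fin m) :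
    dsum π σ (Fin.castAdd k i) = Fin.castAdd k (π i) := by
  unfold dsum
  rw [Equiv.permCongr_apply, finSumFinEquiv_symm_apply_castAdd, Equiv.Perm.sumCongr_apply]
  simp

lemma dsum_natAdd {m k : ℕ} (π : Equiv.Perm (Fin m)) (σ : Equiv.Perm (Fin k)) (i : Fin k) :
    dsum π σ (Fin.natAdd m i) = Fin.natAdd m (σ i) := by
  unfold dsum
  rw [Equiv.permCongr_apply, finSumFinEquiv_symm_apply_natAdd, Equiv.Perm.sumCongr_apply]
  simp

lemma dsum_mul {m k : ℕ} (π : Equiv.Perm (Fin m)) (σ : Equiv.Perm (Fin k)) :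
    dsum π σ * dsum π σ = dsum (π * π) (σ * σ) := by
  ext x
  refine Fin.addCases (fun i => ?_) (fun i => ?_) x
  · rw [Equiv.Perm.mul_apply, dsum_castAdd, dsum_castAdd, dsum_castAdd, Equiv.Perm.mul_apply]
  · rw [Equiv.Perm.mul_apply, dsum_natAdd, dsum_natAdd, dsum_natAdd, Equiv.Perm.mul_apply]

lemma dsum_inj {m k : ℕ} (σ : Equiv.Perm (Fin k)) :
    Function.Injective (fun π : Equiv.Perm (Fin m) => dsum π σ) := by
  intro π π' h
  ext i
  have h1 := congrArg (fun f : Equiv.Perm (Fin (m + k)) => f (Fin.castAdd k i)) h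
  simp only [dsum_castAdd] at h1
  have h2 := congrArg Fin.val h1
  simpa using h2

lemma dsum_lt {m k : ℕ} (π : Equiv.Perm (Fin m)) (σ : Equiv.Perm (Fin k)) (x : Fin (m + k)) :
    ((dsum π σ x : Fin (m + k)) : ℕ) < m ↔ (x : ℕ) < m := by
  refine Fin.addCases (fun i => ?_) (fun i => ?_) x
  · rw [dsum_castAdd]; simp
  · rw [dsum_natAdd]; simp

lemma av_dsum {m k : ℕ} (hk : k ≤ 2) (π : Equiv.Perm (Fin m)) (σ : Equiv.Perm (Fin k)) :
    Av (dsum π σ) ↔ Av π := by
  constructor
  · rintro ⟨h1, h2⟩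
    constructor
    · intro i j l a b c d
      apply h1 (Fin.castAdd k i) (Fin.castAdd k j) (Fin.castAdd k l)
      · exact a
      · exact b
      · rw [dsum_castAdd, dsum_castAdd]; exact c
      · rw [dsum_castAdd, dsum_castAdd]; exact d
    · intro i j l r a b c d e f
      apply h2 (Fin.castAdd k i) (Fin.castAdd k j) (Fin.castAdd k l) (Fin.castAdd k r)
      · exact a
      · exact b
      · exact c
      · rw [dsum_castAdd, dsum_castAdd]; exact d
      · rw [dsum_castAdd, dsum_castAdd]; exact e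
      · rw [dsum_castAdd, dsum_castAdd]; exact f
  · rintro ⟨h1, h2⟩
    have lift : ∀ x : Fin (m + k), (x : ℕ) < m → ∃ i : Fin m, x = Fin.castAdd k i := by
      intro x hx
      exact ⟨⟨x, hx⟩, by ext; simp⟩
    constructor
    · intro i j l a b c d
      have e1 := dsum_lt π σ i
      have e2 := dsum_lt π σ j
      have e3 := dsum_lt π σ l
      rw [Fin.lt_def] at a b c d
      by_cases hl : (l : ℕ) < m
      · obtain ⟨i', rfl⟩ := lift i (by omega)
        obtain ⟨j', rfl⟩ := lift j (by omega)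
        obtain ⟨l', rfl⟩ := lift l hl
        rw [dsum_castAdd, dsum_castAdd] at c d
        exact h1 i' j' l' a b c d
      · have := l.isLt
        omega
    · intro i j l r a b c d e f
      have e1 := dsum_lt π σ i
      have e2 := dsum_lt π σ j
      have e3 := dsum_lt π σ l
      have e4 := dsum_lt π σ r
      rw [Fin.lt_def] at a b c d e f
      by_cases hl : (r : ℕ) < m
      · obtain ⟨i', rfl⟩ := lift i (by omega)
        obtain ⟨j', rfl⟩ := lift j (by omega)
        obtain ⟨l', rfl⟩ := lift l (by omega)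
        obtain ⟨r', rfl⟩ := lift r hl
        rw [dsum_castAdd, dsum_castAdd] at d e f
        exact h2 i' j' l' r' a b c d e f
      · have := r.isLt
        omega

lemma dsum_mem {m k : ℕ} (hk : k ≤ 2) (π : Equiv.Perm (Fin m)) (σ : Equiv.Perm (Fin k)) :
    dsum π σ ∈ SAv (m + k) ↔ π ∈ SAv m := by
  rw [mem_SAv, mem_SAv, dsum_mul, av_dsum hk, av_dsum hk]

/-- a permutation preserving `{0,…,m-1}` whose restriction to the rest is `σ` is a direct sum -/
lemma exists_dsum {m k : ℕ} (f : Equiv.Perm (Fin (m + k))) (σ : Equiv.Perm (Fin k))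
    (h : ∀ i : Fin k, f (Fin.natAdd m i) = Fin.natAdd m (σ i)) :
    ∃ π : Equiv.Perm (Fin m), dsum π σ = f := by
  have hlt : ∀ i : Fin m, ((f (Fin.castAdd k i) : Fin (m + k)) : ℕ) < m := by
    intro i
    by_contra hcon
    have h1 := (f (Fin.castAdd k i)).isLt
    set j : Fin k := ⟨(f (Fin.castAdd k i) : ℕ) - m, by omega⟩ with hj
    have h2 := h (σ.symm j)
    rw [Equiv.apply_symm_apply] at h2
    have h3 : Fin.natAdd m j = f (Fin.castAdd k i) := by
      ext
      simp [hj]
      omega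
    rw [h3] at h2
    have h4 := f.injective h2
    have h5 := congrArg Fin.val h4
    simp at h5
    have := i.isLt
    omega
  let g : Fin m → Fin m := fun i => ⟨(f (Fin.castAdd k i) : ℕ), hlt i⟩
  have hg : Function.Injective g := by
    intro a b hab
    have h1 : (f (Fin.castAdd k a) : ℕ) = f (Fin.castAdd k b) :=
      congrArg (fun z : Fin m => (z : ℕ)) hab
    have h2 := f.injective (Fin.ext h1)
    exact Fin.castAdd_injective m k h2
  refine ⟨Equiv.ofBijective g (Finite.injective_iff_bijective.mp hg), ?_⟩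
  ext x
  refine Fin.addCases (fun i => ?_) (fun i => ?_) x
  · rw [dsum_castAdd]
    rfl
  · rw [dsum_natAdd, h]

/-! ### rotations -/

/-- the rotation by `k` -/
def rot {n : ℕ} [NeZero n] (k : Fin n) : Equiv.Perm (Fin n) := Equiv.addRight k

lemma rot_val {n : ℕ} [NeZero n] (k x : Fin n) : ((rot k x : Fin n) : ℕ) =
    if (x : ℕ) + k < n then (x : ℕ) + k else x + k - n := by
  unfold rot
  rw [Equiv.coe_addRight, Fin.val_add]
  have h1 := x.isLt
  have h2 := k.isLt
  split_ifs with h
  · exact Nat.mod_eq_of_lt h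
  · rw [Nat.mod_eq_sub_mod (by omega), Nat.mod_eq_of_lt (by omega)]

lemma av_rot {n : ℕ} [NeZero n] (k : Fin n) : Av (rot k) := by
  have hk := k.isLt
  constructor
  · intro i j l a b c d
    rw [Fin.lt_def] at a b c d
    rw [rot_val, rot_val] at c d
    have := l.isLt
    split_ifs at c d <;> omega
  · intro i j l r a b c d e f
    rw [Fin.lt_def] at a b c d e f
    rw [rot_val, rot_val] at d e f
    have := r.isLt
    split_ifs at d e f <;> omega

lemma rot_mul {n : ℕ} [NeZero n] (k : Fin n) : rot k * rot k = rot (k + k) := by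
  ext x
  rw [Equiv.Perm.mul_apply]
  simp only [rot, Equiv.coe_addRight, add_assoc]

lemma rot_mem {n : ℕ} [NeZero n] (k : Fin n) : rot k ∈ SAv n := by
  rw [mem_SAv, rot_mul]
  exact ⟨av_rot k, av_rot _⟩

lemma rot_inj {n : ℕ} [NeZero n] : Function.Injective (rot : Fin n → Equiv.Perm (Fin n)) := by
  intro a b h
  have h1 := congrArg (fun f : Equiv.Perm (Fin n) => f 0) h
  simpa [rot] using h1

/-! ### the structure theorem -/

lemma pd_of_mem {n : ℕ} {π : Equiv.Perm (Fin n)} (h : π ∈ SAv n) :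
    PD n (fun i => if hi : i < n then (π ⟨i, hi⟩ : ℕ) else 0)
      (fun i => if hi : i < n then (π.symm ⟨i, hi⟩ : ℕ) else 0) := by
  rw [mem_SAv] at h
  obtain ⟨⟨h1, h2⟩, ⟨h3, h4⟩⟩ := h
  have hv : ∀ (i : ℕ) (hi : i < n), (if hi : i < n then (π ⟨i, hi⟩ : ℕ) else 0) = π ⟨i, hi⟩ :=
    fun i hi => dif_pos hi
  constructor
  · intro i hi
    simp only [hi, dite_true]
    exact (π ⟨i, hi⟩).isLt
  · intro i hi
    simp only [hi, dite_true]
    exact (π.symm ⟨i, hi⟩).isLt
  · intro i hi
    simp only [hi, dite_true, Fin.is_lt, Fin.eta, Equiv.symm_apply_apply]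
  · intro i hi
    simp only [hi, dite_true, Fin.is_lt, Fin.eta, Equiv.apply_symm_apply]
  · intro i j k hij hjk hk a b
    have hj : j < n := by omega
    have hi : i < n := by omega
    simp only [hi, hj, hk, dite_true] at a b
    exact h1 ⟨i, hi⟩ ⟨j, hj⟩ ⟨k, hk⟩ hij hjk a b
  · intro i j k l hij hjk hkl hl a b c
    have hk : k < n := by omega
    have hj : j < n := by omega
    have hi : i < n := by omega
    simp only [hi, hj, hk, hl, dite_true] at a b c
    exact h2 ⟨i, hi⟩ ⟨j, hj⟩ ⟨k, hk⟩ ⟨l, hl⟩ hij hjk hkl a b c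
  · intro i j k hij hjk hk a b
    have hj : j < n := by omega
    have hi : i < n := by omega
    simp only [hi, hj, hk, dite_true, Fin.is_lt, Fin.eta] at a b
    exact h3 ⟨i, hi⟩ ⟨j, hj⟩ ⟨k, hk⟩ hij hjk a b
  · intro i j k l hij hjk hkl hl a b c
    have hk : k < n := by omega
    have hj : j < n := by omega
    have hi : i < n := by omega
    simp only [hi, hj, hk, hl, dite_true, Fin.is_lt, Fin.eta] at a b c
    exact h4 ⟨i, hi⟩ ⟨j, hj⟩ ⟨k, hk⟩ ⟨l, hl⟩ hij hjk hkl a b c

/-- append a fixed point -/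
def addFix {n : ℕ} (π : Equiv.Perm (Fin (n + 1))) : Equiv.Perm (Fin (n + 2)) :=
  dsum (m := n + 1) (k := 1) π 1

/-- append a transposition -/
def addSwap {n : ℕ} (π : Equiv.Perm (Fin n)) : Equiv.Perm (Fin (n + 2)) :=
  dsum (m := n) (k := 2) π (Equiv.swap 0 1)

lemma addFix_inj {n : ℕ} : Function.Injective (addFix (n := n)) :=
  dsum_inj (m := n + 1) (k := 1) 1

lemma addSwap_inj {n : ℕ} : Function.Injective (addSwap (n := n)) :=
  dsum_inj (m := n) (k := 2) (Equiv.swap 0 1)

lemma addFix_last {n : ℕ} (π : Equiv.Perm (Fin (n + 1))) :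
    ((addFix π (Fin.last (n + 1)) : Fin (n + 2)) : ℕ) = n + 1 := by
  have h : dsum (m := n + 1) (k := 1) π 1 (Fin.natAdd (n + 1) 0) = Fin.natAdd (n + 1) (0 : Fin 1) := by
    rw [dsum_natAdd]; rfl
  exact congrArg Fin.val h

lemma addSwap_last {n : ℕ} (π : Equiv.Perm (Fin n)) :
    ((addSwap π (Fin.last (n + 1)) : Fin (n + 2)) : ℕ) = n := by
  have h : dsum (m := n) (k := 2) π (Equiv.swap 0 1) (Fin.natAdd n 1) = Fin.natAdd n (0 : Fin 2) := by
    rw [dsum_natAdd]; simp
  exact congrArg Fin.val h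

lemma addSwap_last' {n : ℕ} (π : Equiv.Perm (Fin n)) :
    ((addSwap π (⟨n, by omega⟩ : Fin (n + 2)) : Fin (n + 2)) : ℕ) = n + 1 := by
  have h : dsum (m := n) (k := 2) π (Equiv.swap 0 1) (Fin.natAdd n 0) = Fin.natAdd n (1 : Fin 2) := by
    rw [dsum_natAdd]; simp
  exact congrArg Fin.val h

lemma SAv_eq (n : ℕ) (hn : 1 ≤ n) : SAv (n + 2) =
    (addFix '' SAv (n + 1) ∪ addSwap '' SAv n) ∪ rot '' {k : Fin (n + 2) | k ≠ 0} := by
  apply Set.eq_of_subset_of_subset
  · intro π hπ
    have hpd := pd_of_mem hπ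
    rcases hpd.main (by omega) with h | ⟨h1, h2⟩ | ⟨k, hk1, hk2, hk⟩
    · left; left
      have hl : n + 2 - 1 < n + 2 := by omega
      simp only [hl, dite_true] at h
      obtain ⟨π', hπ'⟩ := exists_dsum (m := n + 1) (k := 1) π 1 (by
        intro i
        have hi : i = 0 := Subsingleton.elim _ _
        subst hi
        ext
        exact h)
      refine ⟨π', ?_, hπ'⟩
      rw [← dsum_mem (k := 1) (by norm_num) π' 1, hπ']
      exact hπ
    · left; right
      have hl1 : n + 2 - 1 < n + 2 := by omega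
      have hl2 : n + 2 - 2 < n + 2 := by omega
      simp only [hl1, hl2, dite_true] at h1 h2
      obtain ⟨π', hπ'⟩ := exists_dsum (m := n) (k := 2) π (Equiv.swap (0 : Fin 2) 1) (by
        intro i
        fin_cases i
        · ext
          simp only [Fin.zero_eta, Fin.isValue, Equiv.swap_apply_left, Fin.val_natAdd]
          exact h1
        · ext
          simp only [Fin.mk_one, Fin.isValue, Equiv.swap_apply_right, Fin.val_natAdd]
          exact h2)
      refine ⟨π', ?_, hπ'⟩
      rw [← dsum_mem (k := 2) (by norm_num) π' (Equiv.swap (0 : Fin 2) 1), hπ']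
      exact hπ
    · right
      refine ⟨⟨k, hk2⟩, ?_, ?_⟩
      · simp only [Set.mem_ofPred_eq, ne_eq, Fin.ext_iff, Fin.val_zero]
        omega
      · ext x
        have h1 := hk x x.isLt
        simp only [Fin.is_lt, dite_true, Fin.eta] at h1
        rw [h1]
        rfl
  · rintro π ((⟨π', hπ', rfl⟩ | ⟨π', hπ', rfl⟩) | ⟨k, hk, rfl⟩)
    · exact (dsum_mem (k := 1) (by norm_num) π' 1).mpr hπ'
    · exact (dsum_mem (k := 2) (by norm_num) π' _).mpr hπ'
    · exact rot_mem k

lemma ncard_rec (n : ℕ) (hn : 1 ≤ n) :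
    (SAv (n + 2)).ncard = (SAv (n + 1)).ncard + (SAv n).ncard + (n + 1) := by
  have d1 : Disjoint (addFix '' SAv (n + 1)) (addSwap '' SAv n) := by
    rw [Set.disjoint_left]
    rintro _ ⟨π, _, rfl⟩ ⟨π', _, h⟩
    have h1 := congrArg (fun f : Equiv.Perm (Fin (n + 2)) => (f (Fin.last (n + 1)) : ℕ)) h
    simp only [addFix_last, addSwap_last] at h1
    omega
  have d2 : Disjoint (addFix '' SAv (n + 1) ∪ addSwap '' SAv n)
      (rot '' {k : Fin (n + 2) | k ≠ 0}) := by
    rw [Set.disjoint_left]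
    rintro _ (⟨π, _, rfl⟩ | ⟨π, _, rfl⟩) ⟨k, hk, h⟩
    · have h1 := congrArg (fun f : Equiv.Perm (Fin (n + 2)) => (f (Fin.last (n + 1)) : ℕ)) h
      simp only [addFix_last, rot_val, Fin.val_last] at h1
      have h5 := k.isLt
      have h6 : (k : ℕ) ≠ 0 := by
        intro e
        exact hk (Fin.ext e)
      split_ifs at h1 <;> omega
    · have h1 := congrArg (fun f : Equiv.Perm (Fin (n + 2)) => (f (Fin.last (n + 1)) : ℕ)) h
      have h1' := congrArg (fun f : Equiv.Perm (Fin (n + 2)) =>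
        (f (⟨n, by omega⟩ : Fin (n + 2)) : ℕ)) h
      simp only [addSwap_last, addSwap_last', rot_val, Fin.val_last] at h1 h1'
      have h5 := k.isLt
      split_ifs at h1 h1' <;> omega
  have h3 : ({k : Fin (n + 2) | k ≠ 0}).ncard = n + 1 := by
    have h1 : {k : Fin (n + 2) | k ≠ 0}
        = (↑(univ.erase (0 : Fin (n + 2))) : Set (Fin (n + 2))) := by
      ext k
      simp
    rw [h1, Set.ncard_coe_finset, card_erase_of_mem (mem_univ _), card_univ, Fintype.card_fin]
    rfl
  rw [SAv_eq n hn, Set.ncard_union_eq d2 (Set.toFinite _) (Set.toFinite _),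
    Set.ncard_union_eq d1 (Set.toFinite _) (Set.toFinite _),
    Set.ncard_image_of_injective _ addFix_inj, Set.ncard_image_of_injective _ addSwap_inj,
    Set.ncard_image_of_injective _ rot_inj, h3]

lemma SAv_small (n : ℕ) (hn : n ≤ 2) : SAv n = Set.univ := by
  ext π
  simp only [Set.mem_univ, iff_true]
  rw [mem_SAv]
  refine ⟨⟨?_, ?_⟩, ⟨?_, ?_⟩⟩
  · intro i j k a b
    rw [Fin.lt_def] at a b
    have := k.isLt
    omega
  · intro i j k l a b c
    rw [Fin.lt_def] at a b c
    have := l.isLt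
    omega
  · intro i j k a b
    rw [Fin.lt_def] at a b
    have := k.isLt
    omega
  · intro i j k l a b c
    rw [Fin.lt_def] at a b c
    have := l.isLt
    omega

/-- For every positive integer `n`, the number of permutations of `n` letters that strongly avoid
`321` and `1342` is `2 F_{n+2} - n - 2`. -/
theorem result (n : ℕ) (hn : 1 ≤ n) :
    ((SAv n).ncard : ℤ) = 2 * (Nat.fib (n + 2) : ℤ) - n - 2 := by
  have key : ∀ m : ℕ, ((SAv (m + 1)).ncard : ℤ) = 2 * (Nat.fib (m + 3) : ℤ) - (m + 1) - 2 ∧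
      ((SAv (m + 2)).ncard : ℤ) = 2 * (Nat.fib (m + 4) : ℤ) - (m + 2) - 2 := by
    intro m
    induction m with
    | zero =>
      constructor
      · rw [SAv_small 1 (by norm_num), Set.ncard_univ, Nat.card_eq_fintype_card, Fintype.card_perm]
        simp [Nat.fib]
      · rw [SAv_small 2 (by norm_num), Set.ncard_univ, Nat.card_eq_fintype_card, Fintype.card_perm]
        simp [Nat.fib]
    | succ m ih =>
      refine ⟨?_, ?_⟩
      · have := ih.2
        push_cast at this ⊢
        have e : m + 1 + 3 = m + 4 := by ring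
        have e' : m + 1 + 1 = m + 2 := by ring
        rw [e, e', this]
        ring
      · have h1 := ncard_rec (m + 1) (by omega)
        have e1 : m + 1 + 2 = m + 3 := by ring
        have e2 : m + 1 + 1 = m + 2 := by ring
        have e3 : m + 1 + 4 = m + 5 := by ring
        rw [e1, e2] at h1
        rw [e1, e3]
        have h2 : Nat.fib (m + 5) = Nat.fib (m + 3) + Nat.fib (m + 4) := Nat.fib_add_two
        rw [h1, h2]
        push_cast
        rw [ih.1, ih.2]
        ring
  obtain ⟨m, rfl⟩ : ∃ m, n = m + 1 := ⟨n - 1, by omega⟩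
  have := (key m).1
  rw [this]
  push_cast
  ring

end Pool.Agent.Results.MP_aa036a_co.StrongAvoid
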